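import Mathlib

set_option autoImplicit false

/-!
# MP_0d8d6b_gt: One may need memory in the game `G₁(𝒦, Ω)`

We construct a `T₁` space on which One has a winning strategy in the game `G₁(𝒦_X, Ω_X)` but no
winning predetermined strategy.

The points are pairs `(Q, y)`, where `Q` is a countable set of finite sequences of reals and
`y ⊆ Q` is a chain for the extension order.  The sets `A s = {(Q, y) | s ∈ y}` are clopen and for
every countable set `c` of first coordinates the set `{(Q, y) | Q ∈ c}` is closed.  A compact set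
has only finitely many first coordinates, so One can answer the position `s` with the `k`-cover
of all complements of `A (p :: s)`; this wins.  If One's covers are fixed in advance, Two can choose
neighbourhoods of fibres `L Q` whose complements, up to countably many fibres, are contained in
unions of sets `A t` with pairwise incompatible `t`.
-/

open Set Filter Topology

namespace Pool.Agent.Results.MP_0d8d6b_gt.ChainBundle

/-! ### Definitions -/

section Defs

variable {X : Type} [TopologicalSpace X]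

/-- `𝒰 ∈ 𝒦_X`: `𝒰` is an open cover of `X` with `X ∉ 𝒰` such that every nonempty compact subset
of `X` lies inside some member of `𝒰` (a `k`-cover). -/
def IsKCover (𝒰 : Set (Set X)) : Prop :=
  (∀ U ∈ 𝒰, IsOpen U) ∧ ⋃₀ 𝒰 = univ ∧ univ ∉ 𝒰 ∧
    ∀ K : Set X, K.Nonempty → IsCompact K → ∃ U ∈ 𝒰, K ⊆ U

/-- `𝒰 ∈ Ω_X`: `𝒰` is an open cover of `X` with `X ∉ 𝒰` such that every finite subset
of `X` lies inside some member of `𝒰` (an `ω`-cover). -/
def IsOmegaCover (𝒰 : Set (Set X)) : Prop :=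
  (∀ U ∈ 𝒰, IsOpen U) ∧ ⋃₀ 𝒰 = univ ∧ univ ∉ 𝒰 ∧
    ∀ F : Set X, F.Finite → ∃ U ∈ 𝒰, F ⊆ U

variable (X)

/-- One has a winning strategy in `G₁(𝒦_X, Ω_X)`: a rule `σ` assigning a `k`-cover to every finite
sequence of sets (the earlier moves of Two), such that for every play `U 0, U 1, …` of Two against
`σ` the family `{U n}` is not an `ω`-cover. -/
def OneWins : Prop :=
  ∃ σ : (n : ℕ) → (Fin n → Set X) → Set (Set X),
    (∀ n u, IsKCover (σ n u)) ∧
    ∀ U : ℕ → Set X, (∀ n, U n ∈ σ n (fun i => U i)) → ¬ IsOmegaCover (range U)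

/-- One has a winning predetermined strategy in `G₁(𝒦_X, Ω_X)`: a sequence of `k`-covers such that
no choice of one member from each is an `ω`-cover. -/
def OnePreWins : Prop :=
  ∃ 𝒰 : ℕ → Set (Set X), (∀ n, IsKCover (𝒰 n)) ∧
    ∀ U : ℕ → Set X, (∀ n, U n ∈ 𝒰 n) → ¬ IsOmegaCover (range U)

end Defs

/-! ### The combinatorial lemma -/

/-- finite sequences of reals; `p :: s` extends `s` -/
abbrev T := List ℝ

/-- countable sets of finite sequences -/
abbrev QQ := {Q : Set T // Q.Countable}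

instance : Nonempty QQ := ⟨⟨∅, countable_empty⟩⟩

/-- all finite sequences with entries in the set `B` -/
def lists (B : Set ℝ) : Set T := {t | ∀ p ∈ t, p ∈ B}

theorem lists_countable {B : Set ℝ} (hB : B.Countable) : (lists B).Countable := by
  have := hB.to_subtype
  have : lists B ⊆ range (fun l : List B => l.map Subtype.val) := by
    intro t ht
    obtain ⟨t', ht'⟩ : ∃ t' : List B, t'.map Subtype.val = t := CanLift.prf t ht
    exact ⟨t', ht'⟩
  exact (countable_range _).mono this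

/-- The entries of a finite set of finite sequences. -/
def ent (S : Finset T) : Set ℝ := {p | ∃ t ∈ S, p ∈ t}

theorem ent_finite (S : Finset T) : (ent S).Finite := by
  have : ent S = ⋃ t ∈ S, {p | p ∈ t} := by
    ext p
    simp [ent]
  rw [this]
  exact S.finite_toSet.biUnion fun t _ => List.finite_toSet t

/-- A finite set of sequences outside of `Q` for every countable `Q`: there is a root. -/
theorem exists_root (h : QQ → Finset T) (hh : ∀ Q, ∀ t ∈ h Q, t ∉ Q.1) :
    ∃ R : Set ℝ, R.Countable ∧ ∀ B : Set ℝ, B.Countable →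
      ∃ Q : QQ, ent (h Q) ∩ B ⊆ R ∧ ∀ t ∈ h Q, ∃ p ∈ t, p ∉ B := by
  by_contra hcon
  push Not at hcon
  choose! B hBc hB using hcon
  -- the increasing sequence
  let R : ℕ → Set ℝ := fun n => Nat.rec ∅ (fun _ S => S ∪ B S) n
  have hR0 : R 0 = ∅ := rfl
  have hR1 : ∀ n, R (n + 1) = R n ∪ B (R n) := fun n => rfl
  have hRc : ∀ n, (R n).Countable := by
    intro n
    induction n with
    | zero => rw [hR0]; exact countable_empty
    | succ n ih => rw [hR1]; exact ih.union (hBc _ ih)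
  have hmono : Monotone R := monotone_nat_of_le_succ fun n => by
    rw [hR1]; exact subset_union_left
  let Q : QQ := ⟨lists (⋃ n, R n), lists_countable (countable_iUnion hRc)⟩
  have key : ∀ n, ∃ p, p ∈ ent (h Q) ∧ p ∈ R (n + 1) ∧ p ∉ R n := by
    intro n
    by_contra hc
    push Not at hc
    obtain ⟨t, ht, ht'⟩ := hB (R n) (hRc n) Q (by
      rintro p ⟨hp1, hp2⟩
      exact hc p hp1 (by rw [hR1]; exact Or.inr hp2))
    refine hh Q t ht ?_
    intro p hp
    exact mem_iUnion.2 ⟨n + 1, by rw [hR1]; exact Or.inr (ht' p hp)⟩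
  choose p hp1 hp2 hp3 using key
  have hinj : Function.Injective p := by
    intro m n hmn
    rcases lt_trichotomy m n with h' | h' | h'
    · exact absurd (hmono (Nat.succ_le_of_lt h') (hp2 m)) (hmn ▸ hp3 n)
    · exact h'
    · exact absurd (hmono (Nat.succ_le_of_lt h') (hp2 n)) (hmn ▸ hp3 m)
  exact (infinite_range_of_injective hinj) ((ent_finite (h Q)).subset (by
    rintro _ ⟨n, rfl⟩
    exact hp1 n))

/-- The selection lemma: for a sequence of such assignments one can choose countable sets such that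
the corresponding finite sets of sequences are pairwise incompatible. -/
theorem exists_free (h : ℕ → QQ → Finset T) (hh : ∀ n Q, ∀ t ∈ h n Q, t ∉ Q.1) :
    ∃ q : ℕ → QQ, ∀ m n, m < n → ∀ s ∈ h m (q m), ∀ t ∈ h n (q n), ¬ s <:+ t ∧ ¬ t <:+ s := by
  choose R hRc hR using fun n => exists_root (h n) (hh n)
  choose! q hq1 hq2 using hR
  have hR0 : (⋃ n, R n).Countable := countable_iUnion hRc
  let B : ℕ → Set ℝ := fun n => Nat.rec (⋃ n, R n) (fun n S => S ∪ ent (h n (q n S))) n
  have hB0 : B 0 = ⋃ n, R n := rfl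
  have hB1 : ∀ n, B (n + 1) = B n ∪ ent (h n (q n (B n))) := fun n => rfl
  have hBc : ∀ n, (B n).Countable := by
    intro n
    induction n with
    | zero => rw [hB0]; exact hR0
    | succ n ih => rw [hB1]; exact ih.union (ent_finite _).countable
  have hmono : Monotone B := monotone_nat_of_le_succ fun n => by
    rw [hB1]; exact subset_union_left
  refine ⟨fun n => q n (B n), ?_⟩
  intro m n hmn s hs t ht
  have hent : ent (h m (q m (B m))) ⊆ B n := by
    refine Subset.trans ?_ (hmono (Nat.succ_le_of_lt hmn))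
    rw [Nat.succ_eq_add_one, hB1]
    exact subset_union_right
  constructor
  · intro hst
    obtain ⟨p, hp, hpB⟩ := hq2 m (B m) (hBc m) s hs
    have h1 : p ∈ ent (h n (q n (B n))) := ⟨t, ht, hst.subset hp⟩
    have h2 : p ∈ B n := hent ⟨s, hs, hp⟩
    have h3 := hq1 n (B n) (hBc n) ⟨h1, h2⟩
    exact hpB (hmono (Nat.zero_le m) (by rw [hB0]; exact mem_iUnion.2 ⟨n, h3⟩))
  · intro hts
    obtain ⟨p, hp, hpB⟩ := hq2 n (B n) (hBc n) t ht
    exact hpB (hent ⟨s, hs, hts.subset hp⟩)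

/-- Closing off: a sequence of finite sets absorbing countable sets depending on them. -/
theorem exists_absorb {α : Type} [Nonempty α] (c : ℕ → Finset α → Set α)
    (hc : ∀ k G, (c k G).Countable) :
    ∃ G : ℕ → Finset α, ∀ a, ∃ k₀, ∀ k ≥ k₀, a ∈ G k ∨ a ∉ c k (G k) := by
  classical
  let M : ℕ → Set α := fun n => Nat.rec ∅
    (fun _ S => S ∪ ⋃ k, ⋃ G ∈ {G : Finset α | (G : Set α) ⊆ S}, c k G) n
  have hM0 : M 0 = ∅ := rfl
  have hM1 : ∀ n, M (n + 1) = M n ∪ ⋃ k, ⋃ G ∈ {G : Finset α | (G : Set α) ⊆ M n}, c k G :=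
    fun n => rfl
  have hfin : ∀ S : Set α, S.Countable → {G : Finset α | (G : Set α) ⊆ S}.Countable := by
    intro S hS
    have h1 := countable_ofPred_finite_subset hS
    refine (h1.preimage_of_injOn (f := fun G : Finset α => (G : Set α))
      (fun a _ b _ hab => Finset.coe_injective hab)).mono ?_
    intro G hG
    exact ⟨G.finite_toSet, hG⟩
  have hMc : ∀ n, (M n).Countable := by
    intro n
    induction n with
    | zero => rw [hM0]; exact countable_empty
    | succ n ih =>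
      rw [hM1]
      exact ih.union (countable_iUnion fun k => (hfin _ ih).biUnion fun G _ => hc k G)
  have hmono : Monotone M := monotone_nat_of_le_succ fun n => by
    rw [hM1]; exact subset_union_left
  obtain ⟨f, hf⟩ := countable_iff_exists_subset_range.1 (countable_iUnion hMc)
  let G : ℕ → Finset α := fun k => ((Finset.range k).image f).filter fun a => a ∈ ⋃ n, M n
  have hGM : ∀ k, ∃ n, ((G k : Finset α) : Set α) ⊆ M n := by
    intro k
    have : ∀ s : Finset α, (s : Set α) ⊆ ⋃ n, M n → ∃ n, (s : Set α) ⊆ M n := by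
      intro s
      induction s using Finset.induction_on with
      | empty => intro _; exact ⟨0, by simp⟩
      | insert a s _ ih =>
        intro h
        rw [Finset.coe_insert, insert_subset_iff] at h
        obtain ⟨n, hn⟩ := ih h.2
        obtain ⟨m, hm⟩ := mem_iUnion.1 h.1
        refine ⟨max m n, ?_⟩
        rw [Finset.coe_insert, insert_subset_iff]
        exact ⟨hmono (le_max_left _ _) hm, hn.trans (hmono (le_max_right _ _))⟩
    refine this _ ?_
    intro a ha
    exact (Finset.mem_filter.1 (Finset.mem_coe.1 ha)).2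
  refine ⟨G, fun a => ?_⟩
  by_cases ha : a ∈ ⋃ n, M n
  · obtain ⟨i, rfl⟩ := hf ha
    refine ⟨i + 1, fun k hk => Or.inl ?_⟩
    exact Finset.mem_filter.2 ⟨Finset.mem_image_of_mem _ (Finset.mem_range.2 (by omega)), ha⟩
  · refine ⟨0, fun k _ => Or.inr fun hac => ha ?_⟩
    obtain ⟨n, hn⟩ := hGM k
    refine mem_iUnion.2 ⟨n + 1, ?_⟩
    rw [hM1]
    refine Or.inr (mem_iUnion.2 ⟨k, mem_iUnion₂.2 ⟨G k, hn, hac⟩⟩)

/-! ### The space -/

/-- The points of the space: a countable set `Q` of finite sequences and a chain `y ⊆ Q`. -/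
@[ext]
structure Pt where
  Q : QQ
  y : Set T
  sub : y ⊆ Q.1
  chain : ∀ s ∈ y, ∀ t ∈ y, s <:+ t ∨ t <:+ s

/-- The set `A s` of all points whose chain contains `s`. -/
def A (s : T) : Set Pt := {x | s ∈ x.y}

/-- the subbasis -/
def gens : Set (Set Pt) :=
  {V | (∃ s, V = A s) ∨ (∃ s, V = (A s)ᶜ) ∨ ∃ c : Set QQ, c.Countable ∧ V = {x | x.Q ∉ c}}

instance : TopologicalSpace Pt := TopologicalSpace.generateFrom gens

theorem isOpen_A (s : T) : IsOpen (A s) :=
  TopologicalSpace.isOpen_generateFrom_of_mem (Or.inl ⟨s, rfl⟩)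

theorem isOpen_A_compl (s : T) : IsOpen (A s)ᶜ :=
  TopologicalSpace.isOpen_generateFrom_of_mem (Or.inr (Or.inl ⟨s, rfl⟩))

theorem isOpen_co {c : Set QQ} (hc : c.Countable) : IsOpen {x : Pt | x.Q ∉ c} :=
  TopologicalSpace.isOpen_generateFrom_of_mem (Or.inr (Or.inr ⟨c, hc, rfl⟩))

instance : T1Space Pt := by
  rw [t1Space_iff_exists_open]
  intro x x' hne
  by_cases hQ : x.Q = x'.Q
  · have hy : x.y ≠ x'.y := fun h => hne (Pt.ext hQ h)
    have : ∃ s, ¬ (s ∈ x.y ↔ s ∈ x'.y) := by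
      by_contra hc
      push Not at hc
      exact hy (Set.ext hc)
    obtain ⟨s, hs⟩ := this
    by_cases h : s ∈ x.y
    · refine ⟨A s, isOpen_A s, h, fun h' => hs ⟨fun _ => h', fun _ => h⟩⟩
    · refine ⟨(A s)ᶜ, isOpen_A_compl s, h, fun h' => hs ⟨fun h'' => absurd h'' h, fun h'' => ?_⟩⟩
      exact absurd h'' h'
  · exact ⟨_, isOpen_co (countable_singleton x'.Q), hQ, fun h => h rfl⟩

/-- An ultrafilter which does not leave the fibre of `Q` converges to a point of this fibre. -/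
theorem exists_lim (𝓤 : Ultrafilter Pt) (Q : QQ)
    (h1 : ∀ c : Set QQ, c.Countable → Q ∉ c → {x : Pt | x.Q ∉ c} ∈ 𝓤)
    (h2 : ∀ s, s ∉ Q.1 → A s ∉ 𝓤) : ∃ a : Pt, a.Q = Q ∧ (𝓤 : Filter Pt) ≤ 𝓝 a := by
  let a : Pt :=
    { Q := Q
      y := {s | A s ∈ 𝓤}
      sub := by
        intro s hs
        by_contra hc
        exact h2 s hc hs
      chain := by
        intro s hs t ht
        obtain ⟨x, hx1, hx2⟩ := 𝓤.nonempty_of_mem (Filter.inter_mem hs ht)
        exact x.chain s hx1 t hx2 }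
  refine ⟨a, rfl, ?_⟩
  rw [TopologicalSpace.nhds_generateFrom]
  refine le_iInf₂ fun V hV => ?_
  rw [le_principal_iff]
  obtain ⟨haV, ⟨s, rfl⟩ | ⟨s, rfl⟩ | ⟨c, hc, rfl⟩⟩ := hV
  · exact haV
  · exact Ultrafilter.compl_mem_iff_notMem.2 haV
  · exact h1 c hc haV

/-- The fibre over `Q`. -/
def L (Q : QQ) : Set Pt := {x | x.Q = Q}

theorem isCompact_L (Q : QQ) : IsCompact (L Q) := by
  rw [isCompact_iff_ultrafilter_le_nhds]
  intro 𝓤 h𝓤
  rw [le_principal_iff] at h𝓤
  obtain ⟨a, ha, ha'⟩ := exists_lim 𝓤 Q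
    (fun c _ hQ => mem_of_superset h𝓤 fun x (hx : x.Q = Q) => by
      rw [mem_ofPred_eq, hx]; exact hQ)
    (fun s hs hA => by
      obtain ⟨x, hx1, hx2⟩ := 𝓤.nonempty_of_mem (Filter.inter_mem hA h𝓤)
      exact hs (by
        have := x.sub hx1
        rwa [show x.Q = Q from hx2] at this))
  exact ⟨a, ha, ha'⟩

/-- The tube lemma. -/
theorem tube {U : Set Pt} (hU : IsOpen U) {Q : QQ} (hQ : L Q ⊆ U) :
    ∃ (S : Finset T) (c : Set QQ), c.Countable ∧ (∀ s ∈ S, s ∉ Q.1) ∧
      ∀ x : Pt, x.Q ∉ c → (∀ s ∈ S, s ∉ x.y) → x ∈ U := by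
  classical
  by_contra hcon
  push Not at hcon
  -- only countable sets not containing `Q` matter
  have hcon' : ∀ (S : Finset T) (c : Set QQ), c.Countable → (∀ s ∈ S, s ∉ Q.1) →
      ∃ x : Pt, x.Q ∉ c ∧ (∀ s ∈ S, s ∉ x.y) ∧ x ∉ U := hcon
  let F : Filter Pt :=
    { sets := {V | ∃ (S : Finset T) (c : Set QQ), c.Countable ∧ (∀ s ∈ S, s ∉ Q.1) ∧
        ∀ x : Pt, x.Q ∉ c → (∀ s ∈ S, s ∉ x.y) → x ∉ U → x ∈ V}
      univ_sets := ⟨∅, ∅, countable_empty, by simp, fun _ _ _ _ => mem_univ _⟩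
      sets_of_superset := by
        rintro V W ⟨S, c, hc, hS, h⟩ hVW
        exact ⟨S, c, hc, hS, fun x h1 h2 h3 => hVW (h x h1 h2 h3)⟩
      inter_sets := by
        rintro V W ⟨S, c, hc, hS, h⟩ ⟨S', c', hc', hS', h'⟩
        refine ⟨S ∪ S', c ∪ c', hc.union hc', ?_, ?_⟩
        · intro s hs
          rcases Finset.mem_union.1 hs with hs | hs
          · exact hS s hs
          · exact hS' s hs
        · intro x h1 h2 h3
          exact ⟨h x (fun h4 => h1 (Or.inl h4)) (fun s hs => h2 s (Finset.mem_union_left _ hs)) h3,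
            h' x (fun h4 => h1 (Or.inr h4)) (fun s hs => h2 s (Finset.mem_union_right _ hs)) h3⟩ }
  have : F.NeBot := by
    refine Filter.forall_mem_nonempty_iff_neBot.1 ?_
    rintro V ⟨S, c, hc, hS, h⟩
    obtain ⟨x, h1, h2, h3⟩ := hcon' S c hc hS
    exact ⟨x, h x h1 h2 h3⟩
  let 𝓤 := Ultrafilter.of F
  have h𝓤 : (𝓤 : Filter Pt) ≤ F := Ultrafilter.of_le F
  obtain ⟨a, ha, ha'⟩ := exists_lim 𝓤 Q
    (fun c hc _ => h𝓤 ⟨∅, c, hc, by simp, fun x hx _ _ => hx⟩)
    (fun s hs hA => by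
      have : (A s)ᶜ ∈ 𝓤 := h𝓤 ⟨{s}, ∅, countable_empty, by simpa using hs,
        fun x _ hx _ => hx s (Finset.mem_singleton_self s)⟩
      exact (Ultrafilter.compl_mem_iff_notMem.1 this) hA)
  have h1 : U ∈ 𝓤 := ha' (hU.mem_nhds (hQ ha))
  have h2 : Uᶜ ∈ 𝓤 := h𝓤 ⟨∅, ∅, countable_empty, by simp, fun x _ _ hx => hx⟩
  exact (Ultrafilter.compl_mem_iff_notMem.1 h2) h1

/-! ### One's winning strategy -/

/-- the point `({s}, {s})` -/
def pt (s : T) : Pt where
  Q := ⟨{s}, countable_singleton s⟩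
  y := {s}
  sub := subset_rfl
  chain := by
    rintro _ rfl _ rfl
    exact Or.inl (List.suffix_refl _)

theorem A_injective {s t : T} (h : A s = A t) : s = t := by
  have h1 : pt s ∈ A t := by
    rw [← h]
    exact mem_singleton s
  exact (mem_singleton_iff.1 h1).symm

theorem finite_fibres {K : Set Pt} (hK : IsCompact K) : (Pt.Q '' K).Finite := by
  by_contra hinf
  let f := Set.Infinite.natEmbedding (Pt.Q '' K) hinf
  have hf : ∀ i j, ((f i : Pt.Q '' K) : QQ) = f j → i = j := by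
    intro i j h
    exact f.injective (Subtype.ext h)
  let U : ℕ → Set Pt := fun i =>
    {x | x.Q ∉ (range fun j => ((f j : Pt.Q '' K) : QQ)) \ {((f i : Pt.Q '' K) : QQ)}}
  obtain ⟨t, ht⟩ := hK.elim_finite_subcover U
    (fun i => isOpen_co ((countable_range _).mono sdiff_subset)) (by
      intro x _
      by_cases hx : x.Q ∈ range fun j => ((f j : Pt.Q '' K) : QQ)
      · obtain ⟨j, hj⟩ := hx
        exact mem_iUnion.2 ⟨j, fun h => h.2 hj.symm⟩
      · exact mem_iUnion.2 ⟨0, fun h => hx h.1⟩)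
  obtain ⟨i, hi⟩ := Infinite.exists_notMem_finset t
  obtain ⟨x, hxK, hx⟩ := (f i).2
  obtain ⟨j, hj, hxj⟩ := mem_iUnion₂.1 (ht hxK)
  refine hxj ⟨⟨i, hx.symm⟩, fun h => ?_⟩
  have : i = j := hf i j (hx.symm.trans h)
  exact hi (this ▸ hj)

theorem isKCover_children (s : T) : IsKCover {V : Set Pt | ∃ p : ℝ, V = (A (p :: s))ᶜ} := by
  have key : ∀ K : Set Pt, IsCompact K → ∃ p : ℝ, K ⊆ (A (p :: s))ᶜ := by
    intro K hK
    have hC : (⋃ Q ∈ Pt.Q '' K, (Q : QQ).1).Countable :=
      (finite_fibres hK).countable.biUnion fun Q _ => Q.2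
    have hC' : ((fun p : ℝ => p :: s) ⁻¹' (⋃ Q ∈ Pt.Q '' K, (Q : QQ).1)).Countable :=
      hC.preimage_of_injOn fun a _ b _ hab => (List.cons.inj hab).1
    obtain ⟨p, hp⟩ : ∃ p, p ∉ ((fun p : ℝ => p :: s) ⁻¹' (⋃ Q ∈ Pt.Q '' K, (Q : QQ).1)) := by
      by_contra hcon
      push Not at hcon
      exact Cardinal.not_countable_real (hC'.mono fun x _ => hcon x)
    refine ⟨p, fun x hx hxA => hp ?_⟩
    exact mem_iUnion₂.2 ⟨x.Q, mem_image_of_mem _ hx, x.sub hxA⟩
  refine ⟨?_, ?_, ?_, ?_⟩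
  · rintro V ⟨p, rfl⟩
    exact isOpen_A_compl _
  · rw [eq_univ_iff_forall]
    intro x
    obtain ⟨p, hp⟩ := key {x} isCompact_singleton
    exact ⟨_, ⟨p, rfl⟩, hp rfl⟩
  · rintro ⟨p, hp⟩
    have : pt (p :: s) ∈ (A (p :: s))ᶜ := by rw [← hp]; exact mem_univ _
    exact this (mem_singleton _)
  · intro K _ hK
    obtain ⟨p, hp⟩ := key K hK
    exact ⟨_, ⟨p, rfl⟩, hp⟩

open Classical in
/-- the sequence `s` with `V = (A s)ᶜ` -/
noncomputable def dec (V : Set Pt) : T := if h : ∃ s, V = (A s)ᶜ then h.choose else []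

theorem dec_eq (s : T) : dec (A s)ᶜ = s := by
  have h : ∃ s', (A s)ᶜ = (A s')ᶜ := ⟨s, rfl⟩
  unfold dec
  rw [dif_pos h]
  exact (A_injective (compl_injective h.choose_spec)).symm

/-- One's strategy. -/
noncomputable def strat : (n : ℕ) → (Fin n → Set Pt) → Set (Set Pt)
  | 0, _ => {V | ∃ p : ℝ, V = (A [p])ᶜ}
  | n + 1, u => {V | ∃ p : ℝ, V = (A (p :: dec (u (Fin.last n))))ᶜ}

theorem oneWins : OneWins Pt := by
  refine ⟨strat, ?_, ?_⟩
  · intro n u
    cases n with
    | zero => exact isKCover_children []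
    | succ n => exact isKCover_children _
  · intro U hU hcov
    have h1 : ∀ n, U n = (A (dec (U n)))ᶜ := by
      intro n
      have h := hU n
      cases n with
      | zero =>
        obtain ⟨p, hp⟩ := h
        rw [hp, dec_eq]
      | succ n =>
        obtain ⟨p, hp⟩ := h
        rw [hp, dec_eq]
    have h2 : ∀ n, dec (U n) <:+ dec (U (n + 1)) := by
      intro n
      obtain ⟨p, hp⟩ := hU (n + 1)
      have h3 : dec (U (n + 1)) = p :: dec (U n) := by
        rw [hp, dec_eq]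
        rfl
      rw [h3]
      exact List.suffix_cons _ _
    have h3 : ∀ m n, m ≤ n → dec (U m) <:+ dec (U n) := by
      intro m n hmn
      induction n, hmn using Nat.le_induction with
      | base => exact List.suffix_refl _
      | succ n _ ih => exact ih.trans (h2 n)
    let x : Pt :=
      { Q := ⟨range fun n => dec (U n), countable_range _⟩
        y := range fun n => dec (U n)
        sub := subset_rfl
        chain := by
          rintro _ ⟨m, rfl⟩ _ ⟨n, rfl⟩
          rcases le_total m n with h | h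
          · exact Or.inl (h3 m n h)
          · exact Or.inr (h3 n m h) }
    have hx : x ∈ ⋃₀ range U := by
      rw [hcov.2.1]
      exact mem_univ _
    obtain ⟨_, ⟨n, rfl⟩, hxn⟩ := hx
    rw [h1 n] at hxn
    exact hxn ⟨n, rfl⟩

/-! ### Two beats predetermined strategies -/

theorem not_onePreWins : ¬ OnePreWins Pt := by
  classical
  rintro ⟨𝒰, h𝒰, hwin⟩
  have step : ∀ (n : ℕ) (G : Finset QQ) (Q : QQ), ∃ U ∈ 𝒰 n, ∃ (S : Finset T) (c : Set QQ),
      c.Countable ∧ (∀ s ∈ S, s ∉ Q.1) ∧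
      (∀ x : Pt, x.Q ∉ c → (∀ s ∈ S, s ∉ x.y) → x ∈ U) ∧ ∀ x : Pt, x.Q ∈ G → x ∈ U := by
    intro n G Q
    obtain ⟨U, hU, hKU⟩ := (h𝒰 n).2.2.2 (L Q ∪ ⋃ Q' ∈ G, L Q')
      ⟨{ Q := Q, y := ∅, sub := empty_subset _, chain := fun s hs => absurd hs (notMem_empty s) },
        Or.inl rfl⟩
      ((isCompact_L Q).union (G.isCompact_biUnion fun Q' _ => isCompact_L Q'))
    obtain ⟨S, c, hc, hS, h⟩ := tube ((h𝒰 n).1 U hU) (subset_union_left.trans hKU)
    exact ⟨U, hU, S, c, hc, hS, h, fun x hx => hKU (Or.inr (mem_iUnion₂.2 ⟨x.Q, hx, rfl⟩))⟩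
  choose U hU S c hc hS hx hG using step
  have free : ∀ (k : ℕ) (G : Finset QQ), ∃ q : ℕ → QQ, ∀ i j, i < j →
      ∀ s ∈ S (Nat.pair k i) G (q i), ∀ t ∈ S (Nat.pair k j) G (q j), ¬ s <:+ t ∧ ¬ t <:+ s :=
    fun k G => exists_free (fun i Q => S (Nat.pair k i) G Q) (fun i Q => hS _ _ _)
  choose q hq using free
  obtain ⟨G, hGabs⟩ := exists_absorb (fun k G => ⋃ j, c (Nat.pair k j) G (q k G j))
    (fun k G => countable_iUnion fun j => hc _ _ _)
  choose k₀ hk₀ using hGabs
  let V : ℕ → Set Pt := fun n => U n (G n.unpair.1) (q n.unpair.1 (G n.unpair.1) n.unpair.2)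
  have hV : ∀ n, V n ∈ 𝒰 n := fun n => hU _ _ _
  have hVpair : ∀ k j, V (Nat.pair k j) = U (Nat.pair k j) (G k) (q k (G k) j) := by
    intro k j
    show U (Nat.pair k j) (G (Nat.unpair (Nat.pair k j)).1)
      (q (Nat.unpair (Nat.pair k j)).1 (G (Nat.unpair (Nat.pair k j)).1)
        (Nat.unpair (Nat.pair k j)).2) = _
    rw [Nat.unpair_pair]
  have homega : ∀ F : Set Pt, F.Finite → ∃ W ∈ range V, F ⊆ W := by
    intro F hF
    obtain ⟨k, hk⟩ := (hF.image fun x => k₀ x.Q).bddAbove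
    have hsub : ∀ x ∈ F, {j | x ∉ V (Nat.pair k j)}.Subsingleton := by
      intro x hxF
      have hQ : ∀ j, x ∉ V (Nat.pair k j) → ∃ s ∈ S (Nat.pair k j) (G k) (q k (G k) j),
          s ∈ x.y := by
        intro j hj
        rw [hVpair] at hj
        rcases hk₀ x.Q k (hk ⟨x, hxF, rfl⟩) with h | h
        · exact absurd (hG _ _ _ x h) hj
        · by_contra hcon
          push Not at hcon
          exact hj (hx _ _ _ x (fun h' => h (mem_iUnion.2 ⟨j, h'⟩)) hcon)
      have hlt : ∀ i j, i < j → x ∉ V (Nat.pair k i) → x ∉ V (Nat.pair k j) → False := by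
        intro i j hij hi hj
        obtain ⟨s, hs, hsx⟩ := hQ i hi
        obtain ⟨t, ht, htx⟩ := hQ j hj
        have := hq k (G k) i j hij s hs t ht
        rcases x.chain s hsx t htx with h | h
        · exact this.1 h
        · exact this.2 h
      intro i hi j hj
      rcases lt_trichotomy i j with h | h | h
      · exact (hlt i j h hi hj).elim
      · exact h
      · exact (hlt j i h hj hi).elim
    have hfin : (⋃ x ∈ F, {j | x ∉ V (Nat.pair k j)}).Finite :=
      hF.biUnion fun x hx => (hsub x hx).finite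
    obtain ⟨j, hj⟩ := hfin.infinite_compl.nonempty
    refine ⟨V (Nat.pair k j), ⟨_, rfl⟩, fun x hx => ?_⟩
    by_contra hcon
    exact hj (mem_iUnion₂.2 ⟨x, hx, hcon⟩)
  refine hwin V hV ⟨?_, ?_, ?_, homega⟩
  · rintro _ ⟨n, rfl⟩
    exact (h𝒰 n).1 _ (hV n)
  · rw [eq_univ_iff_forall]
    intro x
    obtain ⟨W, hW, hxW⟩ := homega {x} (finite_singleton x)
    exact ⟨W, hW, hxW rfl⟩
  · rintro ⟨n, hn⟩
    exact (h𝒰 n).2.2.1 (hn ▸ hV n)

/-- **Negative answer to Q1.** There is a `T₁` space on which One has a winning strategy in the game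
`G₁(𝒦_X, Ω_X)` but no winning predetermined strategy. -/
theorem result : ∃ (X : Type) (_ : TopologicalSpace X), T1Space X ∧ OneWins X ∧ ¬ OnePreWins X :=
  ⟨Pt, inferInstance, inferInstance, oneWins, not_onePreWins⟩

end Pool.Agent.Results.MP_0d8d6b_gt.ChainBundle
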